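import Mathlib

/-!
# Convex polygons with infinitely many quadrisections

For every `m ≥ 8` there is a convex `m`-gon with infinitely many quadrisections: a square whose
four corners are cut off in such a way that the four removed corner regions have the same area,
three of them by one line each and the fourth one by a convex chain.
-/

namespace Pool.Agent.Results.MP_79dd7e_co.InfinitelyManyQuadrisections

open MeasureTheory Set
open scoped Pointwise

/-- A convex `m`-gon: the convex hull of `m` points none of which lies in the convex hull of the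
others, with nonempty interior. -/
def IsConvexGon (m : ℕ) (R : Set (ℝ × ℝ)) : Prop :=
  (∃ V : Finset (ℝ × ℝ), V.card = m ∧ R = convexHull ℝ (V : Set (ℝ × ℝ)) ∧
    ∀ v ∈ V, v ∉ convexHull ℝ ((V : Set (ℝ × ℝ)) \ {v})) ∧ (interior R).Nonempty

/-- The line through `p` with direction `(cos θ, sin θ)`. -/
def line (p : ℝ × ℝ) (θ : ℝ) : Set (ℝ × ℝ) :=
  {x | ∃ t : ℝ, x = (p.1 + t * Real.cos θ, p.2 + t * Real.sin θ)}

/-- For `s, t ∈ {1, -1}`: the closed quadrant with apex `p` bounded by the lines `line p θ` and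
`line p (θ + π / 2)` of all `x` such that the inner product of `x - p` with `s • (cos θ, sin θ)`
and the inner product of `x - p` with `t • (-sin θ, cos θ)` are nonnegative. -/
def quadrant (p : ℝ × ℝ) (θ s t : ℝ) : Set (ℝ × ℝ) :=
  {x | 0 ≤ s * ((x.1 - p.1) * Real.cos θ + (x.2 - p.2) * Real.sin θ) ∧
    0 ≤ t * (-(x.1 - p.1) * Real.sin θ + (x.2 - p.2) * Real.cos θ)}

/-- The set of quadrisections of `R`: the unordered pairs of perpendicular lines which meet at an
interior point of `R` and such that `R` meets each of the four closed quadrants in a set of area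
`|R| / 4`. -/
def quadrisections (R : Set (ℝ × ℝ)) : Set (Sym2 (Set (ℝ × ℝ))) :=
  {q | ∃ p ∈ interior R, ∃ θ : ℝ, q = s(line p θ, line p (θ + Real.pi / 2)) ∧
    ∀ s ∈ ({1, -1} : Set ℝ), ∀ t ∈ ({1, -1} : Set ℝ),
      volume (R ∩ quadrant p θ s t) = volume R / 4}

/-! ### Convex position -/

lemma lin (a b : ℝ) : IsLinearMap ℝ (fun x : ℝ × ℝ => a * x.1 + b * x.2) :=
  { map_add := by intro x y; simp only [Prod.fst_add, Prod.snd_add]; ring
    map_smul := by intro c x; simp only [Prod.smul_fst, Prod.smul_snd, smul_eq_mul]; ring }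

lemma hull_le {ι : Type} (w : ι → ℝ × ℝ) (a b c : ℝ)
    (h : ∀ i, a * (w i).1 + b * (w i).2 ≤ c) {p : ℝ × ℝ}
    (hp : p ∈ convexHull ℝ (range w)) : a * p.1 + b * p.2 ≤ c := by
  have hc : Convex ℝ {x : ℝ × ℝ | a * x.1 + b * x.2 ≤ c} := convex_halfSpace_le (lin a b) c
  have hs : range w ⊆ {x : ℝ × ℝ | a * x.1 + b * x.2 ≤ c} := by
    rintro x ⟨i, rfl⟩; exact h i
  exact convexHull_min hs hc hp

lemma gon_of_functionals {ι : Type} [Fintype ι] (w : ι → ℝ × ℝ)
    (h : ∀ i, ∃ a b : ℝ, ∀ j, j ≠ i → a * (w j).1 + b * (w j).2 < a * (w i).1 + b * (w i).2)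
    (hint : (interior (convexHull ℝ (range w))).Nonempty) :
    IsConvexGon (Fintype.card ι) (convexHull ℝ (range w)) := by
  classical
  have hinj : Function.Injective w := by
    intro i j hij
    by_contra hne
    obtain ⟨a, b, hab⟩ := h i
    have h1 := hab j (Ne.symm hne)
    rw [hij] at h1
    exact lt_irrefl _ h1
  refine ⟨⟨Finset.univ.image w, ?_, ?_, ?_⟩, hint⟩
  · rw [Finset.card_image_of_injective _ hinj, Finset.card_univ]
  · simp
  · intro v hv hmem
    simp only [Finset.mem_image, Finset.mem_univ, true_and] at hv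
    obtain ⟨i, rfl⟩ := hv
    obtain ⟨a, b, hab⟩ := h i
    have hconv : Convex ℝ {x : ℝ × ℝ | a * x.1 + b * x.2 < a * (w i).1 + b * (w i).2} :=
      convex_halfSpace_lt (lin a b) _
    have hsub : ((Finset.univ.image w : Finset (ℝ × ℝ)) : Set (ℝ × ℝ)) \ {w i} ⊆
        {x : ℝ × ℝ | a * x.1 + b * x.2 < a * (w i).1 + b * (w i).2} := by
      rintro x ⟨hx, hne⟩
      simp only [Finset.coe_image, Finset.coe_univ, image_univ, mem_range] at hx
      obtain ⟨j, rfl⟩ := hx
      refine hab j ?_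
      rintro rfl
      exact hne rfl
    have h1 : a * (w i).1 + b * (w i).2 < a * (w i).1 + b * (w i).2 :=
      convexHull_min hsub hconv hmem
    exact lt_irrefl _ h1

lemma seg {R : Set (ℝ × ℝ)} (hR : Convex ℝ R) {a1 a2 b1 b2 x y α β : ℝ} (hA : (a1, a2) ∈ R)
    (hB : (b1, b2) ∈ R) (hα : 0 ≤ α) (hβ : 0 ≤ β) (hpos : 0 < α + β)
    (hx : (α + β) * x = α * a1 + β * b1) (hy : (α + β) * y = α * a2 + β * b2) :
    (x, y) ∈ R := by
  have h1 := hR hA hB (div_nonneg hα hpos.le) (div_nonneg hβ hpos.le)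
    (by field_simp)
  have hne := hpos.ne'
  convert h1 using 1
  ext
  · simp only [Prod.smul_mk, smul_eq_mul, Prod.mk_add_mk]
    field_simp
    linarith
  · simp only [Prod.smul_mk, smul_eq_mul, Prod.mk_add_mk]
    field_simp
    linarith

/-! ### The vertices -/

/-- The chain near the corner `(1, 1)`. -/
noncomputable def ch (k : ℕ) (i : Fin (k + 1)) : ℝ × ℝ :=
  (1 - (1 / 2) * ((i : ℕ) / (k : ℝ)) ^ 2, 1 - (1 / 2) * (1 - (i : ℕ) / (k : ℝ)) ^ 2)

/-- The other six vertices. -/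
noncomputable def six (s : ℝ) : Fin 6 → ℝ × ℝ :=
  ![(1, -1 + s), (1 - s, -1), (-1 + s, -1), (-1, -1 + s), (-1, 1 - s), (-1 + s, 1)]

noncomputable def vert (k : ℕ) (s : ℝ) : Fin (k + 1) ⊕ Fin 6 → ℝ × ℝ := Sum.elim (ch k) (six s)

lemma frac_bd {k : ℕ} (hk : 1 ≤ k) (i : Fin (k + 1)) :
    0 ≤ ((i : ℕ) : ℝ) / (k : ℝ) ∧ ((i : ℕ) : ℝ) / (k : ℝ) ≤ 1 := by
  have hk0 : (0 : ℝ) < k := by exact_mod_cast hk
  refine ⟨by positivity, ?_⟩
  rw [div_le_one hk0]
  exact_mod_cast Nat.lt_succ_iff.mp i.2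

lemma ch_bd {k : ℕ} (hk : 1 ≤ k) (i : Fin (k + 1)) :
    1 / 2 ≤ (ch k i).1 ∧ (ch k i).1 ≤ 1 ∧ 1 / 2 ≤ (ch k i).2 ∧ (ch k i).2 ≤ 1 ∧
      3 / 2 ≤ (ch k i).1 + (ch k i).2 ∧ (ch k i).1 + (ch k i).2 ≤ 7 / 4 := by
  obtain ⟨h0, h1⟩ := frac_bd hk i
  simp only [ch]
  set r : ℝ := ((i : ℕ) : ℝ) / (k : ℝ)
  refine ⟨by nlinarith, by nlinarith, by nlinarith, by nlinarith, by nlinarith, ?_⟩
  nlinarith [sq_nonneg (2 * r - 1)]

/-- A functional which is strictly maximal at a given vertex of the chain. -/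
lemma ch_functional {k : ℕ} (hk : 1 ≤ k) (i : Fin (k + 1)) :
    ∃ t : ℝ, 0 < t ∧ t < 1 ∧
      (∀ j, j ≠ i → (1 - t) * (ch k j).1 + t * (ch k j).2 <
        (1 - t) * (ch k i).1 + t * (ch k i).2) ∧
      1 - 3 / 2 * t < (1 - t) * (ch k i).1 + t * (ch k i).2 ∧
      1 - 3 / 2 * (1 - t) < (1 - t) * (ch k i).1 + t * (ch k i).2 := by
  have hk0 : (0 : ℝ) < k := by exact_mod_cast hk
  have hk1 : (1 : ℝ) ≤ k := by exact_mod_cast hk
  have hkinv : (0 : ℝ) < 1 / k := by positivity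
  have hkinv1 : (1 : ℝ) / k ≤ 1 := by rw [div_le_one hk0]; exact hk1
  by_cases hi0 : (i : ℕ) = 0
  · refine ⟨(1 / 4) * (1 / k), by positivity, by linarith, ?_, ?_, ?_⟩
    · intro j hj
      have hj0 : (1 : ℝ) ≤ ((j : ℕ) : ℝ) := by
        have : (j : ℕ) ≠ 0 := fun h => hj (Fin.ext (by rw [h, hi0]))
        exact_mod_cast Nat.one_le_iff_ne_zero.mpr this
      have hr : (1 : ℝ) / k ≤ ((j : ℕ) : ℝ) / k := by gcongr
      simp only [ch, hi0]
      set r : ℝ := ((j : ℕ) : ℝ) / (k : ℝ)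
      set e : ℝ := (1 : ℝ) / k
      simp only [Nat.cast_zero, zero_div]
      nlinarith
    · simp only [ch, hi0]
      set e : ℝ := (1 : ℝ) / k
      simp only [Nat.cast_zero, zero_div]
      nlinarith
    · simp only [ch, hi0]
      set e : ℝ := (1 : ℝ) / k
      simp only [Nat.cast_zero, zero_div]
      nlinarith
  by_cases hik : (i : ℕ) = k
  · have hkk : ((k : ℕ) : ℝ) / (k : ℝ) = 1 := div_self hk0.ne'
    refine ⟨1 - (1 / 4) * (1 / k), by linarith, by linarith, ?_, ?_, ?_⟩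
    · intro j hj
      have hj0 : ((j : ℕ) : ℝ) ≤ k - 1 := by
        have h1 : (j : ℕ) ≠ k := fun h => hj (Fin.ext (by rw [h, hik]))
        have h2 : (j : ℕ) ≤ k := Nat.lt_succ_iff.mp j.2
        have h3 : (j : ℕ) + 1 ≤ k := by omega
        have h4 : ((j : ℕ) : ℝ) + 1 ≤ k := by exact_mod_cast h3
        linarith
      have hr : ((j : ℕ) : ℝ) / k ≤ 1 - 1 / k := by
        rw [div_le_iff₀ hk0, sub_mul, one_mul, div_mul_cancel₀ _ hk0.ne']
        exact hj0
      simp only [ch, hik, hkk]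
      set r : ℝ := ((j : ℕ) : ℝ) / (k : ℝ)
      set e : ℝ := (1 : ℝ) / k
      nlinarith
    · simp only [ch, hik, hkk]
      set e : ℝ := (1 : ℝ) / k
      nlinarith
    · simp only [ch, hik, hkk]
      set e : ℝ := (1 : ℝ) / k
      nlinarith
  · have hilt : (i : ℕ) < k := lt_of_le_of_ne (Nat.lt_succ_iff.mp i.2) hik
    have h0 : 0 < ((i : ℕ) : ℝ) / (k : ℝ) := by
      have : (0 : ℝ) < ((i : ℕ) : ℝ) := by exact_mod_cast Nat.pos_of_ne_zero hi0
      positivity
    have h1 : ((i : ℕ) : ℝ) / (k : ℝ) < 1 := by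
      rw [div_lt_one hk0]; exact_mod_cast hilt
    refine ⟨((i : ℕ) : ℝ) / (k : ℝ), h0, h1, ?_, ?_, ?_⟩
    · intro j hj
      have hne : ((j : ℕ) : ℝ) / (k : ℝ) ≠ ((i : ℕ) : ℝ) / (k : ℝ) := by
        intro h
        apply hj
        rw [div_left_inj' hk0.ne'] at h
        exact Fin.ext (by exact_mod_cast h)
      simp only [ch]
      set r : ℝ := ((j : ℕ) : ℝ) / (k : ℝ)
      set t : ℝ := ((i : ℕ) : ℝ) / (k : ℝ)
      have h2 : 0 < (r - t) ^ 2 := by
        have := sub_ne_zero.mpr hne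
        positivity
      nlinarith
    · simp only [ch]
      set t : ℝ := ((i : ℕ) : ℝ) / (k : ℝ)
      nlinarith
    · simp only [ch]
      set t : ℝ := ((i : ℕ) : ℝ) / (k : ℝ)
      nlinarith

lemma vert_functional {k : ℕ} (hk : 1 ≤ k) {s : ℝ} (hs0 : 0 < s) (hs1 : s ≤ 1 / 2)
    (i : Fin (k + 1) ⊕ Fin 6) :
    ∃ a b : ℝ, ∀ j, j ≠ i → a * (vert k s j).1 + b * (vert k s j).2 <
      a * (vert k s i).1 + b * (vert k s i).2 := by
  rcases i with i | i
  · obtain ⟨t, ht0, ht1, h1, h2, h3⟩ := ch_functional hk i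
    refine ⟨1 - t, t, ?_⟩
    rintro (j | j) hj
    · exact h1 j (fun h => hj (by rw [h]))
    · simp only [vert, Sum.elim_inl, Sum.elim_inr]
      generalize (1 - t) * (ch k i).1 + t * (ch k i).2 = f at h1 h2 h3 ⊢
      fin_cases j <;> simp [six] <;> nlinarith
  · fin_cases i
    · refine ⟨2, -1, ?_⟩
      rintro (j | j) hj
      · obtain ⟨h1, h2, h3, h4, h5, h6⟩ := ch_bd hk j
        simp [vert, six]
        linarith
      · fin_cases j <;> simp [vert, six] at hj ⊢ <;> linarith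
    · refine ⟨1, -2, ?_⟩
      rintro (j | j) hj
      · obtain ⟨h1, h2, h3, h4, h5, h6⟩ := ch_bd hk j
        simp [vert, six]
        linarith
      · fin_cases j <;> simp [vert, six] at hj ⊢ <;> linarith
    · refine ⟨-1, -2, ?_⟩
      rintro (j | j) hj
      · obtain ⟨h1, h2, h3, h4, h5, h6⟩ := ch_bd hk j
        simp [vert, six]
        linarith
      · fin_cases j <;> simp [vert, six] at hj ⊢ <;> linarith
    · refine ⟨-2, -1, ?_⟩
      rintro (j | j) hj
      · obtain ⟨h1, h2, h3, h4, h5, h6⟩ := ch_bd hk j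
        simp [vert, six]
        linarith
      · fin_cases j <;> simp [vert, six] at hj ⊢ <;> linarith
    · refine ⟨-2, 1, ?_⟩
      rintro (j | j) hj
      · obtain ⟨h1, h2, h3, h4, h5, h6⟩ := ch_bd hk j
        simp [vert, six]
        linarith
      · fin_cases j <;> simp [vert, six] at hj ⊢ <;> linarith
    · refine ⟨-1, 2, ?_⟩
      rintro (j | j) hj
      · obtain ⟨h1, h2, h3, h4, h5, h6⟩ := ch_bd hk j
        simp [vert, six]
        linarith
      · fin_cases j <;> simp [vert, six] at hj ⊢ <;> linarith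

/-! ### The polygon -/

/-- The square with the four corners cut off. -/
noncomputable def poly (k : ℕ) (s : ℝ) : Set (ℝ × ℝ) := convexHull ℝ (range (vert k s))

/-- The convex hull of the chain. -/
noncomputable def chHull (k : ℕ) : Set (ℝ × ℝ) := convexHull ℝ (range (ch k))

lemma poly_convex (k : ℕ) (s : ℝ) : Convex ℝ (poly k s) := convex_convexHull ℝ _

lemma vert_mem (k : ℕ) (s : ℝ) (i : Fin (k + 1) ⊕ Fin 6) : vert k s i ∈ poly k s :=
  subset_convexHull ℝ _ (mem_range_self i)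

lemma chHull_sub (k : ℕ) (s : ℝ) : chHull k ⊆ poly k s := by
  apply convexHull_mono
  rintro x ⟨i, rfl⟩
  exact ⟨Sum.inl i, rfl⟩

lemma ch_zero_mem (k : ℕ) : ((1 : ℝ), (1 / 2 : ℝ)) ∈ chHull k := by
  have h := subset_convexHull ℝ (range (ch k)) (mem_range_self (0 : Fin (k + 1)))
  have h2 : ch k 0 = ((1 : ℝ), (1 / 2 : ℝ)) := by
    simp only [ch, Fin.val_zero, Nat.cast_zero, zero_div]
    ext <;> norm_num
  rw [h2] at h
  exact h

lemma ch_last_mem {k : ℕ} (hk : 1 ≤ k) : ((1 / 2 : ℝ), (1 : ℝ)) ∈ chHull k := by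
  have h := subset_convexHull ℝ (range (ch k)) (mem_range_self (Fin.last k))
  have hk0 : (k : ℝ) ≠ 0 := by
    have : (0 : ℝ) < k := by exact_mod_cast hk
    exact this.ne'
  have h2 : ch k (Fin.last k) = ((1 / 2 : ℝ), (1 : ℝ)) := by
    simp only [ch, Fin.val_last, div_self hk0]
    ext <;> norm_num
  rw [h2] at h
  exact h

lemma poly_bd {k : ℕ} (hk : 1 ≤ k) {s : ℝ} (hs0 : 0 < s) (hs1 : s ≤ 1 / 2) {p : ℝ × ℝ}
    (hp : p ∈ poly k s) :
    -1 ≤ p.1 ∧ p.1 ≤ 1 ∧ -1 ≤ p.2 ∧ p.2 ≤ 1 ∧ p.1 - p.2 ≤ 2 - s ∧ -p.1 - p.2 ≤ 2 - s ∧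
      -p.1 + p.2 ≤ 2 - s := by
  have key : ∀ a b c : ℝ, (∀ j : Fin (k + 1), a * (ch k j).1 + b * (ch k j).2 ≤ c) →
      (∀ j : Fin 6, a * (six s j).1 + b * (six s j).2 ≤ c) → a * p.1 + b * p.2 ≤ c := by
    intro a b c h1 h2
    refine hull_le (vert k s) a b c ?_ hp
    rintro (j | j)
    · exact h1 j
    · exact h2 j
  have H := ch_bd hk
  have e1 := key (-1) 0 1 (fun j => by obtain ⟨h1, h2, h3, h4, h5, h6⟩ := H j; linarith)
    (fun j => by fin_cases j <;> simp [six] <;> linarith)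
  have e2 := key 1 0 1 (fun j => by obtain ⟨h1, h2, h3, h4, h5, h6⟩ := H j; linarith)
    (fun j => by fin_cases j <;> simp [six] <;> linarith)
  have e3 := key 0 (-1) 1 (fun j => by obtain ⟨h1, h2, h3, h4, h5, h6⟩ := H j; linarith)
    (fun j => by fin_cases j <;> simp [six] <;> linarith)
  have e4 := key 0 1 1 (fun j => by obtain ⟨h1, h2, h3, h4, h5, h6⟩ := H j; linarith)
    (fun j => by fin_cases j <;> simp [six] <;> linarith)
  have e5 := key 1 (-1) (2 - s) (fun j => by obtain ⟨h1, h2, h3, h4, h5, h6⟩ := H j; linarith)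
    (fun j => by fin_cases j <;> simp [six] <;> linarith)
  have e6 := key (-1) (-1) (2 - s) (fun j => by obtain ⟨h1, h2, h3, h4, h5, h6⟩ := H j; linarith)
    (fun j => by fin_cases j <;> simp [six] <;> linarith)
  have e7 := key (-1) 1 (2 - s) (fun j => by obtain ⟨h1, h2, h3, h4, h5, h6⟩ := H j; linarith)
    (fun j => by fin_cases j <;> simp [six] <;> linarith)
  refine ⟨by linarith, by linarith, by linarith, by linarith, by linarith, by linarith,
    by linarith⟩

lemma mem_poly {k : ℕ} (hk : 1 ≤ k) {s : ℝ} (hs0 : 0 < s) (hs1 : s ≤ 1 / 2) {x y : ℝ}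
    (h1 : -1 ≤ x) (h2 : x ≤ 1) (h3 : -1 ≤ y) (h4 : y ≤ 1) (h5 : x - y ≤ 2 - s)
    (h6 : -x - y ≤ 2 - s) (h7 : -x + y ≤ 2 - s) (h8 : x + y ≤ 3 / 2) : (x, y) ∈ poly k s := by
  have hc := poly_convex k s
  have A1 : ((1 : ℝ), -1 + s) ∈ poly k s := vert_mem k s (Sum.inr 0)
  have A2 : (1 - s, (-1 : ℝ)) ∈ poly k s := vert_mem k s (Sum.inr 1)
  have A3 : (-1 + s, (-1 : ℝ)) ∈ poly k s := vert_mem k s (Sum.inr 2)
  have A4 : ((-1 : ℝ), -1 + s) ∈ poly k s := vert_mem k s (Sum.inr 3)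
  have A5 : ((-1 : ℝ), 1 - s) ∈ poly k s := vert_mem k s (Sum.inr 4)
  have A6 : (-1 + s, (1 : ℝ)) ∈ poly k s := vert_mem k s (Sum.inr 5)
  have C0 : ((1 : ℝ), (1 / 2 : ℝ)) ∈ poly k s := chHull_sub k s (ch_zero_mem k)
  have C1 : ((1 / 2 : ℝ), (1 : ℝ)) ∈ poly k s := chHull_sub k s (ch_last_mem hk)
  have hl : ∃ l, (l, y) ∈ poly k s ∧ l ≤ x ∧ l ≤ -1 / 2 := by
    by_cases hy1 : y ≤ -1 + s
    · refine ⟨s - 2 - y, ?_, by linarith, by linarith⟩
      exact seg hc A3 A4 (α := s - 1 - y) (β := y + 1) (by linarith) (by linarith) (by linarith)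
        (by ring) (by ring)
    by_cases hy2 : y ≤ 1 - s
    · refine ⟨-1, ?_, by linarith, by norm_num⟩
      exact seg hc A4 A5 (α := 1 - s - y) (β := y + 1 - s) (by linarith) (by linarith)
        (by linarith) (by ring) (by ring)
    · refine ⟨y + s - 2, ?_, by linarith, by linarith⟩
      exact seg hc A5 A6 (α := 1 - y) (β := y - 1 + s) (by linarith) (by linarith)
        (by linarith) (by ring) (by ring)
  have hr : ∃ r, (r, y) ∈ poly k s ∧ x ≤ r ∧ 1 / 2 ≤ r := by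
    by_cases hy1 : y ≤ -1 + s
    · refine ⟨2 - s + y, ?_, by linarith, by linarith⟩
      exact seg hc A2 A1 (α := s - 1 - y) (β := y + 1) (by linarith) (by linarith) (by linarith)
        (by ring) (by ring)
    by_cases hy2 : y ≤ 1 / 2
    · refine ⟨1, ?_, by linarith, by norm_num⟩
      exact seg hc A1 C0 (α := 1 / 2 - y) (β := y + 1 - s) (by linarith) (by linarith)
        (by linarith) (by ring) (by ring)
    · refine ⟨3 / 2 - y, ?_, by linarith, by linarith⟩
      exact seg hc C0 C1 (α := 1 - y) (β := y - 1 / 2) (by linarith) (by linarith)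
        (by linarith) (by ring) (by ring)
  obtain ⟨l, hl1, hl2, hl3⟩ := hl
  obtain ⟨r, hr1, hr2, hr3⟩ := hr
  exact seg hc hl1 hr1 (α := r - x) (β := x - l) (by linarith) (by linarith) (by linarith)
    (by ring) (by ring)

lemma mem_chHull_of_poly {k : ℕ} (hk : 1 ≤ k) {s : ℝ} (hs0 : 0 < s) (hs1 : s ≤ 1 / 2)
    {p : ℝ × ℝ} (hp : p ∈ poly k s) (hp2 : 3 / 2 < p.1 + p.2) : p ∈ chHull k := by
  have hu : range (vert k s) = range (ch k) ∪ range (six s) := by
    rw [vert, Set.Sum.elim_range]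
  have hp' := hp
  rw [poly, hu, convexHull_union (range_nonempty _) (range_nonempty _), mem_convexJoin] at hp'
  obtain ⟨q, hq, v, hv, hseg⟩ := hp'
  obtain ⟨α, β, hα, hβ, hαβ, rfl⟩ := hseg
  have H := ch_bd hk
  have q1 := hull_le (ch k) (-1) (-1) (-3 / 2)
    (fun j => by obtain ⟨h1, h2, h3, h4, h5, h6⟩ := H j; linarith) hq
  have q2 := hull_le (ch k) 1 0 1
    (fun j => by obtain ⟨h1, h2, h3, h4, h5, h6⟩ := H j; linarith) hq
  have q3 := hull_le (ch k) 0 1 1
    (fun j => by obtain ⟨h1, h2, h3, h4, h5, h6⟩ := H j; linarith) hq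
  have v1 := hull_le (six s) 1 1 (1 / 2)
    (fun j => by fin_cases j <;> simp [six] <;> linarith) hv
  have v2 := hull_le (six s) 1 0 1
    (fun j => by fin_cases j <;> simp [six] <;> linarith) hv
  have v3 := hull_le (six s) 0 1 1
    (fun j => by fin_cases j <;> simp [six] <;> linarith) hv
  have hcc : Convex ℝ (chHull k) := convex_convexHull ℝ _
  obtain ⟨qx, qy⟩ := q
  obtain ⟨vx, vy⟩ := v
  simp only [Prod.smul_mk, smul_eq_mul, Prod.mk_add_mk] at hp2 q1 q2 q3 v1 v2 v3 ⊢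
  set D : ℝ := qx + qy - 3 / 2 with hD
  set F : ℝ := 3 / 2 - (vx + vy) with hF
  have hFpos : 1 ≤ F := by rw [hF]; linarith
  have hkey : β * F < α * D := by
    have : α * (qx + qy) + β * (vx + vy) > 3 / 2 * (α + β) := by rw [hαβ]; linarith
    rw [hD, hF]; nlinarith
  have hDpos : 0 < D := by
    have h0 : 0 ≤ β * F := by positivity
    by_contra hcon
    have : α * D ≤ 0 := mul_nonpos_of_nonneg_of_nonpos hα (not_lt.mp hcon)
    linarith
  have hDF : 0 < D + F := by linarith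
  -- crossing point
  obtain ⟨zx, zy, hzx, hzy⟩ : ∃ zx zy : ℝ, (D + F) * zx = F * qx + D * vx ∧
      (D + F) * zy = F * qy + D * vy :=
    ⟨(F * qx + D * vx) / (D + F), (F * qy + D * vy) / (D + F), by field_simp, by field_simp⟩
  have hz1 : zx + zy = 3 / 2 := by
    have h1 : (D + F) * (zx + zy) = (D + F) * (3 / 2) := by
      have e : (D + F) * (zx + zy) = F * (qx + qy) + D * (vx + vy) := by linarith
      rw [e]
      have e1 : qx + qy = D + 3 / 2 := by rw [hD]; ring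
      have e2 : vx + vy = 3 / 2 - F := by rw [hF]; ring
      rw [e1, e2]; ring
    exact mul_left_cancel₀ hDF.ne' h1
  have hz2 : zx ≤ 1 := by
    have h1 : (D + F) * zx ≤ (D + F) * 1 := by
      rw [hzx]
      nlinarith
    exact le_of_mul_le_mul_left h1 hDF
  have hz3 : zy ≤ 1 := by
    have h1 : (D + F) * zy ≤ (D + F) * 1 := by
      rw [hzy]
      nlinarith
    exact le_of_mul_le_mul_left h1 hDF
  have hz : (zx, zy) ∈ chHull k :=
    seg hcc (ch_zero_mem k) (ch_last_mem hk) (α := 1 - zy) (β := 1 - zx) (by linarith)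
      (by linarith) (by linarith) (by nlinarith) (by nlinarith)
  refine seg hcc hq hz (α := α * D - β * F) (β := β * (D + F)) (by linarith) (by positivity)
    ?_ ?_ ?_
  · have : α * D - β * F + β * (D + F) = D * (α + β) := by ring
    rw [this, hαβ]; linarith
  · have e : α * D - β * F + β * (D + F) = D * (α + β) := by ring
    rw [e, hαβ]
    linear_combination (-β) * hzx
  · have e : α * D - β * F + β * (D + F) = D * (α + β) := by ring
    rw [e, hαβ]
    linear_combination (-β) * hzy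

/-! ### Areas -/

/-- The square. -/
def sq : Set (ℝ × ℝ) := {p | -1 ≤ p.1 ∧ p.1 ≤ 1 ∧ -1 ≤ p.2 ∧ p.2 ≤ 1}

def K1 (s : ℝ) : Set (ℝ × ℝ) := {p | p.1 ≤ 1 ∧ p.2 ≤ 1 ∧ 2 - s < p.1 + p.2}
def K2 (s : ℝ) : Set (ℝ × ℝ) := {p | -1 ≤ p.1 ∧ p.2 ≤ 1 ∧ 2 - s < -p.1 + p.2}
def K3 (s : ℝ) : Set (ℝ × ℝ) := {p | -1 ≤ p.1 ∧ -1 ≤ p.2 ∧ 2 - s < -p.1 - p.2}
def K4 (s : ℝ) : Set (ℝ × ℝ) := {p | p.1 ≤ 1 ∧ -1 ≤ p.2 ∧ 2 - s < p.1 - p.2}

/-- Rotation by a right angle. -/
def rot (p : ℝ × ℝ) : ℝ × ℝ := (-p.2, p.1)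

lemma rot_mp : MeasurePreserving rot volume volume := by
  have h1 : MeasurePreserving (Prod.swap : ℝ × ℝ → ℝ × ℝ) ((volume : Measure ℝ).prod volume)
      ((volume : Measure ℝ).prod volume) := Measure.measurePreserving_swap
  have h2 : MeasurePreserving (Prod.map (fun x : ℝ => -x) (id : ℝ → ℝ))
      ((volume : Measure ℝ).prod volume) ((volume : Measure ℝ).prod volume) :=
    (Measure.measurePreserving_neg volume).prod (MeasurePreserving.id volume)
  exact h2.comp h1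

lemma mK1 (s : ℝ) : MeasurableSet (K1 s) := by
  simp only [K1, ofPred_and]
  refine MeasurableSet.inter ?_ (MeasurableSet.inter ?_ ?_)
  · exact measurableSet_le (by fun_prop) (by fun_prop)
  · exact measurableSet_le (by fun_prop) (by fun_prop)
  · exact measurableSet_lt (by fun_prop) (by fun_prop)

lemma mK2 (s : ℝ) : MeasurableSet (K2 s) := by
  simp only [K2, ofPred_and]
  refine MeasurableSet.inter ?_ (MeasurableSet.inter ?_ ?_)
  · exact measurableSet_le (by fun_prop) (by fun_prop)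
  · exact measurableSet_le (by fun_prop) (by fun_prop)
  · exact measurableSet_lt (by fun_prop) (by fun_prop)

lemma mK3 (s : ℝ) : MeasurableSet (K3 s) := by
  simp only [K3, ofPred_and]
  refine MeasurableSet.inter ?_ (MeasurableSet.inter ?_ ?_)
  · exact measurableSet_le (by fun_prop) (by fun_prop)
  · exact measurableSet_le (by fun_prop) (by fun_prop)
  · exact measurableSet_lt (by fun_prop) (by fun_prop)

lemma mK4 (s : ℝ) : MeasurableSet (K4 s) := by
  simp only [K4, ofPred_and]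
  refine MeasurableSet.inter ?_ (MeasurableSet.inter ?_ ?_)
  · exact measurableSet_le (by fun_prop) (by fun_prop)
  · exact measurableSet_le (by fun_prop) (by fun_prop)
  · exact measurableSet_lt (by fun_prop) (by fun_prop)

lemma msq : MeasurableSet sq := by
  simp only [sq, ofPred_and]
  refine MeasurableSet.inter ?_ (MeasurableSet.inter ?_ (MeasurableSet.inter ?_ ?_))
  · exact measurableSet_le (by fun_prop) (by fun_prop)
  · exact measurableSet_le (by fun_prop) (by fun_prop)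
  · exact measurableSet_le (by fun_prop) (by fun_prop)
  · exact measurableSet_le (by fun_prop) (by fun_prop)

lemma mquad (p : ℝ × ℝ) (θ s t : ℝ) : MeasurableSet (quadrant p θ s t) := by
  simp only [quadrant, ofPred_and]
  refine MeasurableSet.inter ?_ ?_
  · exact measurableSet_le (by fun_prop) (by fun_prop)
  · exact measurableSet_le (by fun_prop) (by fun_prop)

lemma volK2 (s : ℝ) : volume (K2 s) = volume (K1 s) := by
  rw [← rot_mp.measure_preimage (mK2 s).nullMeasurableSet]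
  congr 1
  ext p
  simp only [rot, K1, K2, mem_preimage, mem_ofPred_eq]
  constructor
  · rintro ⟨h1, h2, h3⟩
    exact ⟨by linarith, by linarith, by linarith⟩
  · rintro ⟨h1, h2, h3⟩
    exact ⟨by linarith, by linarith, by linarith⟩

lemma volK3 (s : ℝ) : volume (K3 s) = volume (K1 s) := by
  rw [← volK2, ← rot_mp.measure_preimage (mK3 s).nullMeasurableSet]
  congr 1
  ext p
  simp only [rot, K3, K2, mem_preimage, mem_ofPred_eq]
  constructor
  · rintro ⟨h1, h2, h3⟩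
    exact ⟨by linarith, by linarith, by linarith⟩
  · rintro ⟨h1, h2, h3⟩
    exact ⟨by linarith, by linarith, by linarith⟩

lemma volK4 (s : ℝ) : volume (K4 s) = volume (K1 s) := by
  rw [← volK3, ← rot_mp.measure_preimage (mK4 s).nullMeasurableSet]
  congr 1
  ext p
  simp only [rot, K3, K4, mem_preimage, mem_ofPred_eq]
  constructor
  · rintro ⟨h1, h2, h3⟩
    exact ⟨by linarith, by linarith, by linarith⟩
  · rintro ⟨h1, h2, h3⟩
    exact ⟨by linarith, by linarith, by linarith⟩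

/-- The standard triangle. -/
def tri : Set (ℝ × ℝ) := {p | 0 ≤ p.1 ∧ 0 ≤ p.2 ∧ p.1 + p.2 < 1}

lemma mtri : MeasurableSet tri := by
  simp only [tri, ofPred_and]
  refine MeasurableSet.inter ?_ (MeasurableSet.inter ?_ ?_)
  · exact measurableSet_le (by fun_prop) (by fun_prop)
  · exact measurableSet_le (by fun_prop) (by fun_prop)
  · exact measurableSet_lt (by fun_prop) (by fun_prop)

lemma vol_tri_ne_top : volume tri ≠ ⊤ := by
  have h1 : tri ⊆ Icc ((0 : ℝ), (0 : ℝ)) (1, 1) := by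
    rintro p ⟨h1, h2, h3⟩
    exact ⟨⟨h1, h2⟩, ⟨by simp only; linarith, by simp only; linarith⟩⟩
  exact ((measure_mono h1).trans_lt isCompact_Icc.measure_lt_top).ne

lemma vol_tri_ne_zero : volume tri ≠ 0 := by
  have h1 : IsOpen {p : ℝ × ℝ | 0 < p.1 ∧ 0 < p.2 ∧ p.1 + p.2 < 1} := by
    simp only [ofPred_and]
    refine IsOpen.inter ?_ (IsOpen.inter ?_ ?_)
    · exact isOpen_lt (by fun_prop) (by fun_prop)
    · exact isOpen_lt (by fun_prop) (by fun_prop)
    · exact isOpen_lt (by fun_prop) (by fun_prop)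
  have h2 : ({p : ℝ × ℝ | 0 < p.1 ∧ 0 < p.2 ∧ p.1 + p.2 < 1}).Nonempty :=
    ⟨(1 / 4, 1 / 4), by norm_num⟩
  have h3 := h1.measure_pos volume h2
  have h4 : {p : ℝ × ℝ | 0 < p.1 ∧ 0 < p.2 ∧ p.1 + p.2 < 1} ⊆ tri := by
    rintro p ⟨h1, h2, h3⟩
    exact ⟨h1.le, h2.le, h3⟩
  exact (h3.trans_le (measure_mono h4)).ne'

lemma volK1 {s : ℝ} (hs : 0 < s) : volume (K1 s) = ENNReal.ofReal (s ^ 2) * volume tri := by
  have h1 : K1 s = (fun p : ℝ × ℝ => ((1 : ℝ), (1 : ℝ)) - p) ⁻¹' (s • tri) := by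
    ext p
    rw [mem_preimage, mem_smul_set_iff_inv_smul_mem₀ hs.ne']
    simp only [K1, tri, mem_ofPred_eq, Prod.smul_fst, Prod.smul_snd, Prod.fst_sub, Prod.snd_sub,
      smul_eq_mul]
    have hsi : 0 < s⁻¹ := inv_pos.mpr hs
    constructor
    · rintro ⟨h1, h2, h3⟩
      refine ⟨by have : 0 ≤ 1 - p.1 := by linarith
                 positivity, by have : 0 ≤ 1 - p.2 := by linarith
                                positivity, ?_⟩
      rw [← mul_add, inv_mul_lt_iff₀ hs]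
      linarith
    · rintro ⟨h1, h2, h3⟩
      have h1' := nonneg_of_mul_nonneg_right h1 hsi
      have h2' := nonneg_of_mul_nonneg_right h2 hsi
      rw [← mul_add, inv_mul_lt_iff₀ hs] at h3
      exact ⟨by linarith, by linarith, by linarith⟩
  have h2 : MeasurableSet (s • tri) := mtri.const_smul_of_ne_zero hs.ne'
  rw [h1, (Measure.measurePreserving_sub_left volume ((1 : ℝ), (1 : ℝ))).measure_preimage
    h2.nullMeasurableSet, Measure.addHaar_smul]
  simp [abs_of_pos (pow_pos hs 2)]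

/-- The part of the square which is cut off at the corner `(1, 1)`. -/
noncomputable def corner (k : ℕ) : Set (ℝ × ℝ) := K1 (1 / 2) \ chHull k

lemma mhull (k : ℕ) : MeasurableSet (chHull k) :=
  ((Set.finite_range (ch k)).isCompact_convexHull (𝕜 := ℝ)).isClosed.measurableSet

lemma mcorner (k : ℕ) : MeasurableSet (corner k) := (mK1 _).diff (mhull k)

lemma exists_s {k : ℕ} (hk : 1 ≤ k) :
    ∃ s : ℝ, 0 < s ∧ s ≤ 1 / 2 ∧ volume (K1 s) = volume (corner k) := by
  have h1 : K1 (1 / 4) ⊆ corner k := by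
    rintro p ⟨h1, h2, h3⟩
    refine ⟨⟨h1, h2, by linarith⟩, fun hp => ?_⟩
    have h4 := hull_le (ch k) 1 1 (7 / 4)
      (fun j => by obtain ⟨h1, h2, h3, h4, h5, h6⟩ := ch_bd hk j; linarith) hp
    linarith
  have h2 : corner k ⊆ K1 (1 / 2) := sdiff_subset
  have h3 := measure_mono (μ := volume) h1
  have h4 := measure_mono (μ := volume) h2
  rw [volK1 (by norm_num)] at h3 h4
  have htop : volume (corner k) ≠ ⊤ :=
    (h4.trans_lt (ENNReal.mul_lt_top ENNReal.ofReal_lt_top vol_tri_ne_top.lt_top)).ne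
  have hκ : 0 < (volume tri).toReal := ENNReal.toReal_pos vol_tri_ne_zero vol_tri_ne_top
  have h5 := ENNReal.toReal_mono htop h3
  have h6 := ENNReal.toReal_mono
    (ENNReal.mul_lt_top ENNReal.ofReal_lt_top vol_tri_ne_top.lt_top).ne h4
  rw [ENNReal.toReal_mul, ENNReal.toReal_ofReal (by norm_num)] at h5 h6
  set A : ℝ := (volume (corner k)).toReal with hA
  set κ : ℝ := (volume tri).toReal with hκd
  have hr1 : 1 / 16 ≤ A / κ := by
    rw [le_div_iff₀ hκ]; linarith
  have hr2 : A / κ ≤ 1 / 4 := by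
    rw [div_le_iff₀ hκ]; linarith
  have hs0 : 0 < Real.sqrt (A / κ) := Real.sqrt_pos.mpr (by linarith)
  refine ⟨Real.sqrt (A / κ), hs0, ?_, ?_⟩
  · rw [Real.sqrt_le_left (by norm_num)]
    linarith
  · rw [volK1 hs0, Real.sq_sqrt (by linarith), ← ENNReal.ofReal_toReal vol_tri_ne_top, ← hκd,
      ← ENNReal.ofReal_mul (by linarith), div_mul_cancel₀ _ hκ.ne', hA,
      ENNReal.ofReal_toReal htop]

lemma null_line (a b : ℝ) (hab : 0 < a ^ 2 + b ^ 2) :
    volume {p : ℝ × ℝ | a * p.1 + b * p.2 = 0} = 0 := by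
  set L : ℝ × ℝ →ₗ[ℝ] ℝ := a • LinearMap.fst ℝ ℝ ℝ + b • LinearMap.snd ℝ ℝ ℝ with hL
  have hLa : ∀ p : ℝ × ℝ, L p = a * p.1 + b * p.2 := by
    intro p; simp [hL]
  have h1 : {p : ℝ × ℝ | a * p.1 + b * p.2 = 0} = (LinearMap.ker L : Set (ℝ × ℝ)) := by
    ext p
    simp only [mem_ofPred_eq, SetLike.mem_coe, LinearMap.mem_ker, hLa]
  rw [h1]
  apply Measure.addHaar_submodule
  intro htop
  have h2 : ((a, b) : ℝ × ℝ) ∈ LinearMap.ker L := by rw [htop]; trivial
  rw [LinearMap.mem_ker, hLa] at h2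
  simp only at h2
  nlinarith

lemma split_vol (a b : ℝ) (hab : 0 < a ^ 2 + b ^ 2) (E : Set (ℝ × ℝ)) :
    volume E = volume (E ∩ {p | 0 ≤ 1 * (a * p.1 + b * p.2)}) +
      volume (E ∩ {p | 0 ≤ (-1) * (a * p.1 + b * p.2)}) := by
  have ht : MeasurableSet {p : ℝ × ℝ | 0 ≤ 1 * (a * p.1 + b * p.2)} :=
    measurableSet_le (by fun_prop) (by fun_prop)
  rw [← measure_inter_add_sdiff E ht]
  congr 1
  refine measure_eq_measure_of_null_sdiff ?_ ?_
  · rintro p ⟨hp, hp2⟩
    refine ⟨hp, ?_⟩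
    simp only [mem_ofPred_eq, not_le] at hp2 ⊢
    linarith
  · refine measure_mono_null ?_ (null_line a b hab)
    rintro p ⟨⟨hp, hp2⟩, hp3⟩
    have h3 : 0 ≤ 1 * (a * p.1 + b * p.2) := by
      by_contra hcon
      exact hp3 ⟨hp, hcon⟩
    simp only [mem_ofPred_eq] at hp2 ⊢
    linarith

lemma sum_quadrants (θ : ℝ) (E : Set (ℝ × ℝ)) :
    volume E = (volume (E ∩ quadrant (0, 0) θ 1 1) + volume (E ∩ quadrant (0, 0) θ 1 (-1))) +
      (volume (E ∩ quadrant (0, 0) θ (-1) 1) + volume (E ∩ quadrant (0, 0) θ (-1) (-1))) := by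
  have hcs := Real.sin_sq_add_cos_sq θ
  have hE : ∀ s t : ℝ, E ∩ quadrant (0, 0) θ s t =
      (E ∩ {p | 0 ≤ s * (Real.cos θ * p.1 + Real.sin θ * p.2)}) ∩
        {p | 0 ≤ t * (-Real.sin θ * p.1 + Real.cos θ * p.2)} := by
    intro s t
    ext p
    simp only [quadrant, mem_inter_iff, mem_ofPred_eq, sub_zero]
    have e1 : p.1 * Real.cos θ + p.2 * Real.sin θ = Real.cos θ * p.1 + Real.sin θ * p.2 := by
      ring
    have e2 : -p.1 * Real.sin θ + p.2 * Real.cos θ = -Real.sin θ * p.1 + Real.cos θ * p.2 := by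
      ring
    rw [e1, e2, and_assoc]
  rw [hE, hE, hE, hE,
    ← split_vol (-Real.sin θ) (Real.cos θ) (by nlinarith),
    ← split_vol (-Real.sin θ) (Real.cos θ) (by nlinarith),
    ← split_vol (Real.cos θ) (Real.sin θ) (by nlinarith)]

lemma rot_quadrant (θ s t : ℝ) :
    volume (sq ∩ quadrant (0, 0) θ s t) = volume (sq ∩ quadrant (0, 0) θ t (-s)) := by
  rw [← rot_mp.measure_preimage (msq.inter (mquad _ _ _ _)).nullMeasurableSet]
  congr 1
  ext p
  simp only [rot, sq, quadrant, mem_preimage, mem_inter_iff, mem_ofPred_eq, sub_zero]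
  have e1 : s * (-p.2 * Real.cos θ + p.1 * Real.sin θ) =
      -s * (-p.1 * Real.sin θ + p.2 * Real.cos θ) := by ring
  have e2 : t * (- -p.2 * Real.sin θ + p.1 * Real.cos θ) =
      t * (p.1 * Real.cos θ + p.2 * Real.sin θ) := by ring
  rw [e1, e2]
  constructor
  · rintro ⟨⟨h1, h2, h3, h4⟩, h5, h6⟩
    exact ⟨⟨by linarith, by linarith, by linarith, by linarith⟩, h6, h5⟩
  · rintro ⟨⟨h1, h2, h3, h4⟩, h5, h6⟩
    exact ⟨⟨by linarith, by linarith, by linarith, by linarith⟩, h6, h5⟩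

/-- Signs of the two coordinates near the corners. -/
lemma signs {c n : ℝ} (h1 : -(c / 2) < n) (h2 : n < c / 2) {p : ℝ × ℝ} (hp : p ∈ sq) :
    (1 / 2 < p.1 → 0 < p.1 * c + p.2 * n) ∧ (p.1 < -1 / 2 → p.1 * c + p.2 * n < 0) ∧
      (1 / 2 < p.2 → 0 < -p.1 * n + p.2 * c) ∧ (p.2 < -1 / 2 → -p.1 * n + p.2 * c < 0) := by
  obtain ⟨a1, a2, a3, a4⟩ := hp
  have hc : 0 < c := by linarith
  have key : ∀ u : ℝ, -1 ≤ u → u ≤ 1 → -(c / 2) ≤ u * n ∧ u * n ≤ c / 2 := by
    intro u hu1 hu2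
    have h3 : |u * n| ≤ c / 2 := by
      rw [abs_mul]
      have h4 : |u| ≤ 1 := abs_le.mpr ⟨hu1, hu2⟩
      have h5 : |n| ≤ c / 2 := abs_le.mpr ⟨h1.le, h2.le⟩
      calc |u| * |n| ≤ 1 * (c / 2) := mul_le_mul h4 h5 (abs_nonneg _) (by norm_num)
        _ = c / 2 := by ring
    exact abs_le.mp h3
  obtain ⟨k1, k2⟩ := key p.2 a3 a4
  obtain ⟨k3, k4⟩ := key p.1 a1 a2
  refine ⟨fun h => ?_, fun h => ?_, fun h => ?_, fun h => ?_⟩
  · have := mul_lt_mul_of_pos_right h hc
    linarith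
  · have := mul_lt_mul_of_pos_right h hc
    linarith
  · have := mul_lt_mul_of_pos_right h hc
    linarith
  · have := mul_lt_mul_of_pos_right h hc
    linarith

lemma poly_quadrants {k : ℕ} (hk : 1 ≤ k) {s : ℝ} (hs0 : 0 < s) (hs1 : s ≤ 1 / 2) {θ : ℝ}
    (h1 : -(Real.cos θ / 2) < Real.sin θ) (h2 : Real.sin θ < Real.cos θ / 2) :
    poly k s ∩ quadrant (0, 0) θ 1 1 = (sq ∩ quadrant (0, 0) θ 1 1) \ corner k ∧
    poly k s ∩ quadrant (0, 0) θ (-1) 1 = (sq ∩ quadrant (0, 0) θ (-1) 1) \ K2 s ∧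
    poly k s ∩ quadrant (0, 0) θ (-1) (-1) = (sq ∩ quadrant (0, 0) θ (-1) (-1)) \ K3 s ∧
    poly k s ∩ quadrant (0, 0) θ 1 (-1) = (sq ∩ quadrant (0, 0) θ 1 (-1)) \ K4 s := by
  refine ⟨?_, ?_, ?_, ?_⟩
  · ext p
    constructor
    · rintro ⟨hp, hq⟩
      obtain ⟨b1, b2, b3, b4, b5, b6, b7⟩ := poly_bd hk hs0 hs1 hp
      refine ⟨⟨⟨b1, b2, b3, b4⟩, hq⟩, ?_⟩
      rintro ⟨⟨c1, c2, c3⟩, c4⟩
      exact c4 (mem_chHull_of_poly hk hs0 hs1 hp (by linarith))
    · rintro ⟨⟨hp, hq⟩, hc⟩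
      refine ⟨?_, hq⟩
      obtain ⟨g1, g2, g3, g4⟩ := signs h1 h2 hp
      obtain ⟨b1, b2, b3, b4⟩ := hp
      obtain ⟨q1, q2⟩ := hq
      simp only [sub_zero] at q1 q2
      by_cases hd : 3 / 2 < p.1 + p.2
      · by_contra hcon
        exact hc ⟨⟨b2, b4, by linarith⟩, fun h => hcon (chHull_sub k s h)⟩
      · refine mem_poly hk hs0 hs1 b1 b2 b3 b4 ?_ ?_ ?_ (not_lt.mp hd)
        · by_contra hcon
          have := g4 (by linarith)
          linarith
        · by_contra hcon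
          have := g4 (by linarith)
          linarith
        · by_contra hcon
          have := g2 (by linarith)
          linarith
  · ext p
    constructor
    · rintro ⟨hp, hq⟩
      obtain ⟨b1, b2, b3, b4, b5, b6, b7⟩ := poly_bd hk hs0 hs1 hp
      refine ⟨⟨⟨b1, b2, b3, b4⟩, hq⟩, ?_⟩
      rintro ⟨c1, c2, c3⟩
      linarith
    · rintro ⟨⟨hp, hq⟩, hc⟩
      refine ⟨?_, hq⟩
      obtain ⟨g1, g2, g3, g4⟩ := signs h1 h2 hp
      obtain ⟨b1, b2, b3, b4⟩ := hp
      obtain ⟨q1, q2⟩ := hq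
      simp only [sub_zero] at q1 q2
      refine mem_poly hk hs0 hs1 b1 b2 b3 b4 ?_ ?_ ?_ ?_
      · by_contra hcon
        have := g1 (by linarith)
        linarith
      · by_contra hcon
        have := g4 (by linarith)
        linarith
      · by_contra hcon
        exact hc ⟨b1, b4, not_le.mp hcon⟩
      · by_contra hcon
        have := g1 (by linarith)
        linarith
  · ext p
    constructor
    · rintro ⟨hp, hq⟩
      obtain ⟨b1, b2, b3, b4, b5, b6, b7⟩ := poly_bd hk hs0 hs1 hp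
      refine ⟨⟨⟨b1, b2, b3, b4⟩, hq⟩, ?_⟩
      rintro ⟨c1, c2, c3⟩
      linarith
    · rintro ⟨⟨hp, hq⟩, hc⟩
      refine ⟨?_, hq⟩
      obtain ⟨g1, g2, g3, g4⟩ := signs h1 h2 hp
      obtain ⟨b1, b2, b3, b4⟩ := hp
      obtain ⟨q1, q2⟩ := hq
      simp only [sub_zero] at q1 q2
      refine mem_poly hk hs0 hs1 b1 b2 b3 b4 ?_ ?_ ?_ ?_
      · by_contra hcon
        have := g1 (by linarith)
        linarith
      · by_contra hcon
        exact hc ⟨b1, b3, not_le.mp hcon⟩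
      · by_contra hcon
        have := g3 (by linarith)
        linarith
      · by_contra hcon
        have := g1 (by linarith)
        linarith
  · ext p
    constructor
    · rintro ⟨hp, hq⟩
      obtain ⟨b1, b2, b3, b4, b5, b6, b7⟩ := poly_bd hk hs0 hs1 hp
      refine ⟨⟨⟨b1, b2, b3, b4⟩, hq⟩, ?_⟩
      rintro ⟨c1, c2, c3⟩
      linarith
    · rintro ⟨⟨hp, hq⟩, hc⟩
      refine ⟨?_, hq⟩
      obtain ⟨g1, g2, g3, g4⟩ := signs h1 h2 hp
      obtain ⟨b1, b2, b3, b4⟩ := hp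
      obtain ⟨q1, q2⟩ := hq
      simp only [sub_zero] at q1 q2
      refine mem_poly hk hs0 hs1 b1 b2 b3 b4 ?_ ?_ ?_ ?_
      · by_contra hcon
        exact hc ⟨b2, b3, not_le.mp hcon⟩
      · by_contra hcon
        have := g2 (by linarith)
        linarith
      · by_contra hcon
        have := g3 (by linarith)
        linarith
      · by_contra hcon
        have := g3 (by linarith)
        linarith

/-- All four quadrants contain the same area of the polygon. -/
lemma quarter {k : ℕ} (hk : 1 ≤ k) {s : ℝ} (hs0 : 0 < s) (hs1 : s ≤ 1 / 2)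
    (hvol : volume (K1 s) = volume (corner k)) {θ : ℝ}
    (h1 : -(Real.cos θ / 2) < Real.sin θ) (h2 : Real.sin θ < Real.cos θ / 2) :
    ∀ u ∈ ({1, -1} : Set ℝ), ∀ v ∈ ({1, -1} : Set ℝ),
      volume (poly k s ∩ quadrant (0, 0) θ u v) = volume (poly k s) / 4 := by
  obtain ⟨p1, p2, p3, p4⟩ := poly_quadrants hk hs0 hs1 h1 h2
  have hsqtop : ∀ A : Set (ℝ × ℝ), A ⊆ sq → volume A ≠ ⊤ := by
    intro A hA
    have h3 : A ⊆ Icc ((-1 : ℝ), (-1 : ℝ)) (1, 1) := by
      intro p hp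
      obtain ⟨b1, b2, b3, b4⟩ := hA hp
      exact ⟨⟨b1, b3⟩, ⟨b2, b4⟩⟩
    exact ((measure_mono h3).trans_lt isCompact_Icc.measure_lt_top).ne
  have s1 : corner k ⊆ sq ∩ quadrant (0, 0) θ 1 1 := by
    rintro p ⟨⟨c1, c2, c3⟩, c4⟩
    have hp : p ∈ sq := ⟨by linarith, c1, by linarith, c2⟩
    obtain ⟨g1, g2, g3, g4⟩ := signs h1 h2 hp
    refine ⟨hp, ?_, ?_⟩
    · simp only [sub_zero]
      have := g1 (by linarith)
      linarith
    · simp only [sub_zero]
      have := g3 (by linarith)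
      linarith
  have s2 : K2 s ⊆ sq ∩ quadrant (0, 0) θ (-1) 1 := by
    rintro p ⟨c1, c2, c3⟩
    have hp : p ∈ sq := ⟨c1, by linarith, by linarith, c2⟩
    obtain ⟨g1, g2, g3, g4⟩ := signs h1 h2 hp
    refine ⟨hp, ?_, ?_⟩
    · simp only [sub_zero]
      have := g2 (by linarith)
      linarith
    · simp only [sub_zero]
      have := g3 (by linarith)
      linarith
  have s3 : K3 s ⊆ sq ∩ quadrant (0, 0) θ (-1) (-1) := by
    rintro p ⟨c1, c2, c3⟩
    have hp : p ∈ sq := ⟨c1, by linarith, c2, by linarith⟩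
    obtain ⟨g1, g2, g3, g4⟩ := signs h1 h2 hp
    refine ⟨hp, ?_, ?_⟩
    · simp only [sub_zero]
      have := g2 (by linarith)
      linarith
    · simp only [sub_zero]
      have := g4 (by linarith)
      linarith
  have s4 : K4 s ⊆ sq ∩ quadrant (0, 0) θ 1 (-1) := by
    rintro p ⟨c1, c2, c3⟩
    have hp : p ∈ sq := ⟨by linarith, c1, c2, by linarith⟩
    obtain ⟨g1, g2, g3, g4⟩ := signs h1 h2 hp
    refine ⟨hp, ?_, ?_⟩
    · simp only [sub_zero]
      have := g1 (by linarith)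
      linarith
    · simp only [sub_zero]
      have := g4 (by linarith)
      linarith
  set m : ENNReal := volume (sq ∩ quadrant (0, 0) θ 1 1) - volume (corner k) with hm
  have r1 : volume (sq ∩ quadrant (0, 0) θ 1 (-1)) = volume (sq ∩ quadrant (0, 0) θ 1 1) :=
    (rot_quadrant θ 1 1).symm
  have r2 : volume (sq ∩ quadrant (0, 0) θ (-1) (-1)) = volume (sq ∩ quadrant (0, 0) θ 1 1) := by
    rw [← r1]; exact (rot_quadrant θ 1 (-1)).symm
  have r3 : volume (sq ∩ quadrant (0, 0) θ (-1) 1) = volume (sq ∩ quadrant (0, 0) θ 1 1) := by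
    rw [← r2, rot_quadrant θ (-1) (-1), neg_neg]
  have m1 : volume (poly k s ∩ quadrant (0, 0) θ 1 1) = m := by
    rw [p1, measure_sdiff s1 (mcorner k).nullMeasurableSet
      (hsqtop _ (s1.trans inter_subset_left))]
  have m2 : volume (poly k s ∩ quadrant (0, 0) θ (-1) 1) = m := by
    rw [p2, measure_sdiff s2 (mK2 s).nullMeasurableSet
      (hsqtop _ (s2.trans inter_subset_left)), r3, volK2, hvol]
  have m3 : volume (poly k s ∩ quadrant (0, 0) θ (-1) (-1)) = m := by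
    rw [p3, measure_sdiff s3 (mK3 s).nullMeasurableSet
      (hsqtop _ (s3.trans inter_subset_left)), r2, volK3, hvol]
  have m4 : volume (poly k s ∩ quadrant (0, 0) θ 1 (-1)) = m := by
    rw [p4, measure_sdiff s4 (mK4 s).nullMeasurableSet
      (hsqtop _ (s4.trans inter_subset_left)), r1, volK4, hvol]
  have htot : volume (poly k s) = 4 * m := by
    rw [sum_quadrants θ (poly k s), m1, m2, m3, m4]
    ring
  have hfin : m = volume (poly k s) / 4 := by
    rw [ENNReal.eq_div_iff (by norm_num) (by norm_num), htot]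
  intro u hu v hv
  simp only [mem_insert_iff, mem_singleton_iff] at hu hv
  rcases hu with rfl | rfl <;> rcases hv with rfl | rfl
  · rw [m1, hfin]
  · rw [m4, hfin]
  · rw [m2, hfin]
  · rw [m3, hfin]

lemma zero_mem_interior {k : ℕ} (hk : 1 ≤ k) {s : ℝ} (hs0 : 0 < s) (hs1 : s ≤ 1 / 2) :
    ((0 : ℝ), (0 : ℝ)) ∈ interior (poly k s) := by
  rw [mem_interior]
  refine ⟨Ioo (-1 / 4) (1 / 4) ×ˢ Ioo (-1 / 4) (1 / 4), ?_, isOpen_Ioo.prod isOpen_Ioo, ?_⟩
  · rintro ⟨x, y⟩ ⟨⟨h1, h2⟩, ⟨h3, h4⟩⟩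
    simp only at h1 h2 h3 h4
    exact mem_poly hk hs0 hs1 (by linarith) (by linarith) (by linarith) (by linarith)
      (by linarith) (by linarith) (by linarith) (by linarith)
  · exact ⟨⟨by norm_num, by norm_num⟩, ⟨by norm_num, by norm_num⟩⟩

/-- Two lines through the origin agree only if their directions are parallel. -/
lemma line_eq {θ φ : ℝ} (h : line (0, 0) θ = line (0, 0) φ) : Real.sin (θ - φ) = 0 := by
  have h1 : ((Real.cos θ, Real.sin θ) : ℝ × ℝ) ∈ line (0, 0) θ := ⟨1, by simp⟩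
  rw [h] at h1
  obtain ⟨t, ht⟩ := h1
  simp only [zero_add, Prod.mk.injEq] at ht
  rw [Real.sin_sub, ht.1, ht.2]
  ring

lemma infinite_quadrisections {k : ℕ} (hk : 1 ≤ k) {s : ℝ} (hs0 : 0 < s) (hs1 : s ≤ 1 / 2)
    (hvol : volume (K1 s) = volume (corner k)) : (quadrisections (poly k s)).Infinite := by
  have hpi := Real.pi_gt_three
  refine Set.infinite_of_injOn_mapsTo (s := Ioo (0 : ℝ) (1 / 4))
    (f := fun θ => s(line (0, 0) θ, line (0, 0) (θ + Real.pi / 2))) ?_ ?_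
    (Ioo_infinite (by norm_num))
  · rintro θ ⟨h1, h2⟩ φ ⟨h3, h4⟩ h
    simp only [Sym2.eq_iff] at h
    rcases h with ⟨h5, -⟩ | ⟨h5, -⟩
    · have h6 := line_eq h5
      have h7 := (Real.sin_eq_zero_iff_of_lt_of_lt (by linarith) (by linarith)).mp h6
      linarith
    · have h6 := line_eq h5
      have h7 := (Real.sin_eq_zero_iff_of_lt_of_lt (by linarith) (by linarith)).mp h6
      linarith
  · rintro θ ⟨h1, h2⟩
    refine ⟨(0, 0), zero_mem_interior hk hs0 hs1, θ, rfl, ?_⟩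
    have h3 : Real.sin θ < 1 / 4 := (Real.sin_lt h1).trans h2
    have h4 : 0 < Real.sin θ := Real.sin_pos_of_pos_of_lt_pi h1 (by linarith)
    have h5 := Real.one_sub_sq_div_two_le_cos (x := θ)
    have h6 : 1 / 2 < Real.cos θ := by nlinarith
    exact quarter hk hs0 hs1 hvol (by linarith) (by linarith)

/-- **Main result.** For every `m ≥ 8` there is a convex `m`-gon with infinitely many
quadrisections.  In particular, for every `n ≥ 4` it is false that every convex `(2n+1)`-gon has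
at most `2n+1` quadrisections. -/
theorem result :
    (∀ m : ℕ, 8 ≤ m → ∃ R : Set (ℝ × ℝ), IsConvexGon m R ∧ (quadrisections R).Infinite) ∧
    (∀ n : ℕ, 4 ≤ n → ¬ ∀ R : Set (ℝ × ℝ), IsConvexGon (2 * n + 1) R →
      (quadrisections R).encard ≤ ((2 * n + 1 : ℕ) : ℕ∞)) := by
  have main : ∀ m : ℕ, 8 ≤ m → ∃ R : Set (ℝ × ℝ), IsConvexGon m R ∧
      (quadrisections R).Infinite := by
    intro m hm
    obtain ⟨k, rfl⟩ : ∃ k, m = k + 7 := ⟨m - 7, by omega⟩
    have hk : 1 ≤ k := by omega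
    obtain ⟨s, hs0, hs1, hvol⟩ := exists_s hk
    refine ⟨poly k s, ?_, infinite_quadrisections hk hs0 hs1 hvol⟩
    have h1 := gon_of_functionals (vert k s) (vert_functional hk hs0 hs1)
      ⟨_, zero_mem_interior hk hs0 hs1⟩
    have h2 : Fintype.card (Fin (k + 1) ⊕ Fin 6) = k + 7 := by simp
    rw [h2] at h1
    exact h1
  refine ⟨main, fun n hn h => ?_⟩
  obtain ⟨R, h1, h2⟩ := main (2 * n + 1) (by omega)
  have h3 := h R h1
  rw [h2.encard_eq, top_le_iff] at h3
  exact ENat.natCast_ne_top _ h3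

end Pool.Agent.Results.MP_79dd7e_co.InfinitelyManyQuadrisections
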